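import Pool.Agent.U55.PZ.Zero

/-!
# The Pisot substitution conjecture: a zero-one law for compositions of substitutions

Let `F` be a finite family of substitutions on `m + 1 ≥ 2` letters with incidence matrices of
determinant `± 1`, which need not commute. `cw F w` is the composition of the members of `F` along
the word `w`, for instance `F i ∘ F j ∘ F k` for `w = [i, j, k]`. The family is uniformly Pisot
(`UnifPisot`, in `Pool/Agent/R889/PZ/UDef.lean`) if the incidence matrices of all long compositions
are positive and if, up to a constant, compositions of length `n` contract by `θ ^ n`, `θ < 1`, all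
the vectors whose images have coordinates of both signs. `Coinc σ` is the geometric coincidence
condition. A word `w` is good (`GoodWord F w`) if `cw F w` is a unimodular irreducible Pisot
substitution which satisfies the geometric coincidence condition and is semi-conjugate to a minimal
toral translation, as in the problem file.

1. Whether `cw F w` satisfies the geometric coincidence condition depends only on the primitive
   cyclic word of `w` (its primitive root up to rotation).
2. Zero-one law. Either no composition satisfies the condition, or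
   * if the word `w` satisfies it, then all words which contain a large power of `w` are good;
   * for every probability law on the family with positive weights there is `c > 0` such that the
     probability that a random infinite sequence has a prefix of length between `n` and `n + j`
     which is not good is at most `C exp (- c n)`, uniformly in `j`. So almost surely all but
     finitely many of the compositions `F i₁ ∘ ⋯ ∘ F i_k` satisfy the Pisot conjecture, and only an
     exponentially small proportion of the words of length `n` is not good.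
3. Examples of uniformly Pisot families: for every nonnegative unimodular irreducible Pisot matrix
   `M`, all `T` and `B` there is `K` such that all families of substitutions `ρ ∘ τ`, `ρ` with
   determinant `± 1` and images of length at most `T`, `τ` with incidence matrix `M ^ k`, `k ≥ K`,
   and discrepancy at most `B`, are uniformly Pisot.

Built on the library `Pool/Agent/R889/PZ` (`word_absorb`, `wt_exp`, `unif_of_blocks`), in turn based
on `Pool/Agent/H812R2/PI` (helper812 and others).
-/

set_option autoImplicit false

namespace Pool.Agent.Results.MP_e732b0_an.ZeroOneLaw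

open Pool.Agent.H812R2.PI Pool.Agent.R889.PZ Pool.Agent.U55.PZ
open scoped BigOperators

/-- the composition of the members of `F` along the word `w` -/
abbrev cw {m : ℕ} {ι : Type} (F : ι → Fin (m+1) → List (Fin (m+1))) (w : List ι) :
    Fin (m+1) → List (Fin (m+1)) := compList (w.map F)

open Classical in
theorem result {m : ℕ} (hm : 1 ≤ m) :
    (∀ {ι : Type} [Fintype ι] (F : ι → Fin (m+1) → List (Fin (m+1))),
      (∀ i, (inc (F i)).det = 1 ∨ (inc (F i)).det = -1) → UnifPisot F →
      (∀ u v : List ι, Coinc (cw F (u ++ v)) ↔ Coinc (cw F (v ++ u))) ∧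
      (∀ w : List ι, w ≠ [] → ∀ q ≥ 1,
        (Coinc (cw F (List.replicate q w).flatten) ↔ Coinc (cw F w))) ∧
      ((∀ w : List ι, w ≠ [] → ¬ Coinc (cw F w)) ∨
        ((∃ w : List ι, w ≠ [] ∧ Coinc (cw F w)) ∧
          (∀ w : List ι, w ≠ [] → Coinc (cw F w) → ∃ K : ℕ, ∀ k ≥ K, ∀ l₁ l₂ : List ι,
            GoodWord F (l₁ ++ (List.replicate k w).flatten ++ l₂)) ∧
          ∀ p : ι → ℝ, (∀ i, 0 < p i) → ∑ i, p i = 1 → ∃ C c : ℝ, 0 < c ∧ ∀ n j : ℕ,
            ∑ f : Fin (n + j) → ι,
              (if ∀ k, n ≤ k → k ≤ n + j → GoodWord F ((List.ofFn f).take k) then 0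
                else ∏ i, p (f i)) ≤ C * Real.exp (-(c * n))))) ∧
    (∀ M : Matrix (Fin (m+1)) (Fin (m+1)) ℤ, (∀ i j, 0 ≤ M i j) → PisotMat M →
      ∀ (lam : ℝ) (u : Fin (m+1) → ℝ), 1 < lam → (∀ i, ∑ j, (M i j : ℝ) * u j = lam * u i) →
      ∑ i, u i = 1 → ∀ (T : ℕ) (B : ℝ), ∃ K : ℕ, ∀ {ι : Type}
        (F : ι → Fin (m+1) → List (Fin (m+1))),
        (∀ i, ∃ (ρ τ : Fin (m+1) → List (Fin (m+1))) (k : ℕ), F i = comp ρ τ ∧
          ((inc ρ).det = 1 ∨ (inc ρ).det = -1) ∧ (∀ a, (ρ a).length ≤ T) ∧ K ≤ k ∧
            τ ∈ SubSet u (M ^ k) B) → UnifPisot F) := by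
  constructor
  · intro ι _ F hdet hU
    refine ⟨word_cyc F hdet, fun w hw q hq => word_pow hm F hdet hU w hw q hq, ?_⟩
    by_cases h : ∀ w : List ι, w ≠ [] → ¬ Coinc (cw F w)
    · exact Or.inl h
    · push Not at h
      obtain ⟨w, hw, hg⟩ := h
      refine Or.inr ⟨⟨w, hw, hg⟩, fun s hs hgs => word_absorb hm F hdet hU s hs hgs,
        fun p hp hs => ?_⟩
      obtain ⟨K, hK⟩ := word_absorb hm F hdet hU w hw hg
      refine prefix_law p hp hs (List.replicate (K + 1) w).flatten ?_ (GoodWord F)
        fun l₁ l₂ => hK (K + 1) (Nat.le_succ K) l₁ l₂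
      rw [List.replicate_succ, List.flatten_cons]
      intro h
      exact hw (List.append_eq_nil_iff.1 h).1
  · intro M hnn hM lam u hlam hu husum T B
    obtain ⟨P, hPu, -⟩ := exists_PD M hnn hM lam hlam u hu husum
    obtain ⟨K, hK⟩ := unif_of_blocks_all P T B
    refine ⟨K, fun F hF => hK _ F fun i => ?_⟩
    obtain ⟨ρ, τ, k, h1, h2, h3, h4, h5⟩ := hF i
    exact ⟨ρ, τ, k, h1, by rcases h2 with h | h <;> rw [h] <;> norm_num, h3, h4, hPu ▸ h5⟩

end Pool.Agent.Results.MP_e732b0_an.ZeroOneLaw
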